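import Pool.Agent.helper9.HX.Spec

set_option autoImplicit false

open scoped Classical

namespace Pool.Agent.helper9.HX

open Finset
open Pool.Agent.helper65.HC (V IsEig IsTop lam)
open Pool.Agent.helper9.HQ (Fam Dn E N Le hi c)
open Pool.Agent.helper9

theorem N1 : N1_stmt := by
  intro a b hb
  obtain ⟨r, hr⟩ : ∃ r : ℝ, r = √((a - 1 - b) ^ 2 + 16 * b) := ⟨_, rfl⟩
  have hr0 : 0 ≤ r := by
    rw [hr]
    exact Real.sqrt_nonneg _
  have hr2 : r ^ 2 = (a - 1 - b) ^ 2 + 16 * b := by
    rw [hr]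
    exact Real.sq_sqrt (by positivity)
  have habs : |a - 1 - b| ≤ r := by
    refine abs_le_of_sq_le_sq ?_ hr0
    rw [hr2]
    linarith
  obtain ⟨h1, h2⟩ := abs_le.1 habs
  obtain ⟨g, hg⟩ : ∃ g : ℝ, g = G a b := ⟨_, rfl⟩
  have hg2 : g = (a + b + 1 + r) / 2 := by
    rw [hg, hr]
    rfl
  rw [← hg]
  have hga : a ≤ g := by
    rw [hg2]
    linarith
  have hgb : b + 1 ≤ g := by
    rw [hg2]
    linarith
  have hprod : (g - a) * (g - b - 1) = 4 * b := by
    rw [hg2]
    linear_combination (1 / 4 : ℝ) * hr2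
  refine ⟨hprod, hga, hgb, ?_, ?_, ?_⟩
  · intro y hy
    by_contra hlt
    rw [not_le] at hlt
    have h3 : (g - a) * (g - b - 1) < (y - a) * (y - b - 1) :=
      mul_lt_mul'' (by linarith) (by linarith) (by linarith) (by linarith)
    linarith
  · intro y hya hyb hy
    by_contra hlt
    rw [not_le] at hlt
    have h3 : (y - a) * (y - b - 1) < (g - a) * (g - b - 1) :=
      mul_lt_mul'' (by linarith) (by linarith) (by linarith) (by linarith)
    linarith
  · intro s v hs hv hsv
    have hp : 0 ≤ g - a := by linarith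
    have hq : 0 ≤ g - b - 1 := by linarith
    have h3 : (4 * s) ^ 2 ≤ ((g - a) + (g - b - 1) * v) ^ 2 := by
      have h4 : 4 * ((g - a) * ((g - b - 1) * v)) ≤ ((g - a) + (g - b - 1) * v) ^ 2 := by
        have := sq_nonneg ((g - a) - (g - b - 1) * v)
        nlinarith
      have h5 : 4 * ((g - a) * ((g - b - 1) * v)) = 16 * (b * v) := by
        have : (g - a) * ((g - b - 1) * v) = (g - a) * (g - b - 1) * v := by ring
        rw [this, hprod]
        ring
      nlinarith
    have h6 : 4 * s ≤ (g - a) + (g - b - 1) * v :=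
      (pow_le_pow_iff_left₀ (by positivity) (by positivity) (by norm_num)).1 h3
    nlinarith

end Pool.Agent.helper9.HX
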